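import Pool.Agent.X84.Fl.Sard
import Pool.Agent.X84.Fl.Fld

/-!
# Generic functions have isolated critical points
-/

open scoped Topology ContDiff Manifold
open Set Filter Bundle MeasureTheory Pool.Agent.Helper186 Pool.Agent.H826R2.Wein

set_option autoImplicit false
set_option linter.unusedSectionVars false

noncomputable section

namespace Pool.Agent.X84.Fl

universe u v

variable {E : Type u} [NormedAddCommGroup E] [NormedSpace ℝ E] [FiniteDimensional ℝ E]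
  {P : Type v} [TopologicalSpace P] [ChartedSpace E P] [IsManifold 𝓘(ℝ, E) ∞ P]

/-- derivative in the chart at `c` -/
def cd (c : P) (q : P → ℝ) (u : E) : E →L[ℝ] ℝ :=
  fderiv ℝ (q ∘ (extChartAt 𝓘(ℝ, E) c).symm) u

theorem chart_smooth (c : P) {q : P → ℝ} (hq : ContMDiff 𝓘(ℝ, E) 𝓘(ℝ, ℝ) ∞ q) :
    ContDiffOn ℝ ∞ (q ∘ (extChartAt 𝓘(ℝ, E) c).symm) (extChartAt 𝓘(ℝ, E) c).target := by
  rw [← contMDiffOn_iff_contDiffOn]
  exact hq.comp_contMDiffOn (contMDiffOn_extChartAt_symm c)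

theorem cd_smooth (c : P) {q : P → ℝ} (hq : ContMDiff 𝓘(ℝ, E) 𝓘(ℝ, ℝ) ∞ q) :
    ContDiffOn ℝ 1 (cd (E := E) c q) (extChartAt 𝓘(ℝ, E) c).target :=
  (chart_smooth c hq).fderiv_of_isOpen (isOpen_extChartAt_target c) (by norm_cast)

theorem chart_diff (c : P) {q : P → ℝ} (hq : ContMDiff 𝓘(ℝ, E) 𝓘(ℝ, ℝ) ∞ q) {u : E}
    (hu : u ∈ (extChartAt 𝓘(ℝ, E) c).target) :
    DifferentiableAt ℝ (q ∘ (extChartAt 𝓘(ℝ, E) c).symm) u :=
  (((chart_smooth c hq).differentiableOn (by simp)) u hu).differentiableAt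
    ((isOpen_extChartAt_target c).mem_nhds hu)

theorem cd_crit (c : P) {q : P → ℝ} (hq : ContMDiff 𝓘(ℝ, E) 𝓘(ℝ, ℝ) ∞ q) {x : P}
    (hx : x ∈ (extChartAt 𝓘(ℝ, E) c).source) (h0 : dForm 𝓘(ℝ, E) q x = 0) :
    cd c q (extChartAt 𝓘(ℝ, E) c x) = 0 := by
  have ht : extChartAt 𝓘(ℝ, E) c x ∈ (extChartAt 𝓘(ℝ, E) c).target :=
    (extChartAt 𝓘(ℝ, E) c).map_source hx
  have h1 : MDifferentiableAt 𝓘(ℝ, E) 𝓘(ℝ, E) (extChartAt 𝓘(ℝ, E) c).symm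
      (extChartAt 𝓘(ℝ, E) c x) :=
    (((contMDiffOn_extChartAt_symm (I := 𝓘(ℝ, E)) (n := ∞) c) _ ht).contMDiffAt
      ((isOpen_extChartAt_target c).mem_nhds ht)).mdifferentiableAt (by simp)
  have h2 : mfderiv 𝓘(ℝ, E) 𝓘(ℝ, ℝ) (q ∘ (extChartAt 𝓘(ℝ, E) c).symm) (extChartAt 𝓘(ℝ, E) c x) =
      (mfderiv 𝓘(ℝ, E) 𝓘(ℝ, ℝ) q ((extChartAt 𝓘(ℝ, E) c).symm (extChartAt 𝓘(ℝ, E) c x))).comp
      (mfderiv 𝓘(ℝ, E) 𝓘(ℝ, E) (extChartAt 𝓘(ℝ, E) c).symm (extChartAt 𝓘(ℝ, E) c x)) :=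
    mfderiv_comp _ (hq.mdifferentiableAt (by simp)) h1
  have h3 : mfderiv 𝓘(ℝ, E) 𝓘(ℝ, ℝ) q ((extChartAt 𝓘(ℝ, E) c).symm (extChartAt 𝓘(ℝ, E) c x)) = 0 := by
    rw [(extChartAt 𝓘(ℝ, E) c).left_inv hx]
    exact h0
  rw [h3, ContinuousLinearMap.zero_comp] at h2
  unfold cd
  rw [← mfderiv_eq_fderiv]
  exact h2

variable {S : Type*} [Fintype S]

/-- perturbed function -/
def pf (h : P → ℝ) (g : S → P → ℝ) (a : S → ℝ) (x : P) : ℝ := h x + ∑ s, a s * g s x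

theorem pf_smooth {h : P → ℝ} (hh : ContMDiff 𝓘(ℝ, E) 𝓘(ℝ, ℝ) ∞ h) {g : S → P → ℝ}
    (hg : ∀ s, ContMDiff 𝓘(ℝ, E) 𝓘(ℝ, ℝ) ∞ (g s)) (a : S → ℝ) :
    ContMDiff 𝓘(ℝ, E) 𝓘(ℝ, ℝ) ∞ (pf h g a) := by
  have h1 : ContMDiff 𝓘(ℝ, E) 𝓘(ℝ, ℝ) ∞ (fun x => ∑ s, a s * g s x) := by
    have : ∀ s ∈ (Finset.univ : Finset S), ContMDiff 𝓘(ℝ, E) 𝓘(ℝ, ℝ) ∞ (fun x => a s * g s x) :=
      fun s _ => contMDiff_const.mul (hg s)
    exact ContMDiff.sum (t := Finset.univ) this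
  exact hh.add h1

theorem cd_pf (c : P) {h : P → ℝ} (hh : ContMDiff 𝓘(ℝ, E) 𝓘(ℝ, ℝ) ∞ h) {g : S → P → ℝ}
    (hg : ∀ s, ContMDiff 𝓘(ℝ, E) 𝓘(ℝ, ℝ) ∞ (g s)) (a : S → ℝ) {u : E}
    (hu : u ∈ (extChartAt 𝓘(ℝ, E) c).target) :
    cd c (pf h g a) u = cd c h u + ∑ s, a s • cd c (g s) u := by
  have h1 : (pf h g a) ∘ (extChartAt 𝓘(ℝ, E) c).symm = fun v =>
      (h ∘ (extChartAt 𝓘(ℝ, E) c).symm) v + ∑ s, a s * (g s ∘ (extChartAt 𝓘(ℝ, E) c).symm) v := rfl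
  have h2 : HasFDerivAt (fun v => (h ∘ (extChartAt 𝓘(ℝ, E) c).symm) v +
      ∑ s, a s * (g s ∘ (extChartAt 𝓘(ℝ, E) c).symm) v)
      (cd c h u + ∑ s, a s • cd c (g s) u) u := by
    refine (chart_diff c hh hu).hasFDerivAt.add ?_
    exact HasFDerivAt.fun_sum fun s _ => ((chart_diff c (hg s) hu).hasFDerivAt.const_mul (a s))
  unfold cd at h2 ⊢
  rw [h1]
  exact h2.fderiv

variable [T2Space P] {ι : Type*} [Fintype ι] (f : SmoothBumpCovering ι 𝓘(ℝ, E) P)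

/-- dimension -/
abbrev dm (E : Type u) [NormedAddCommGroup E] [NormedSpace ℝ E] : ℕ := Module.finrank ℝ E

/-- coordinates -/
def co (E : Type u) [NormedAddCommGroup E] [NormedSpace ℝ E] [FiniteDimensional ℝ E]
    (k : Fin (dm E)) : E →L[ℝ] ℝ :=
  LinearMap.toContinuousLinearMap ((Module.finBasis ℝ E).coord k)

theorem sum_co (β : E →L[ℝ] ℝ) : ∑ k, β (Module.finBasis ℝ E k) • co E k = β := by
  ext x
  rw [sum_apply]
  conv_rhs => rw [← (Module.finBasis ℝ E).sum_repr x, map_sum]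
  refine Finset.sum_congr rfl fun k _ => ?_
  rw [smul_apply, map_smul, smul_eq_mul, smul_eq_mul, mul_comm]
  rfl

/-- the family of functions -/
def fam (s : ι × Fin (dm E)) (x : P) : ℝ :=
  co E s.2 (f s.1 x • extChartAt 𝓘(ℝ, E) (f.c s.1) x)

theorem fam_smooth (s : ι × Fin (dm E)) : ContMDiff 𝓘(ℝ, E) 𝓘(ℝ, ℝ) ∞ (fam f s) :=
  (co E s.2).contMDiff.comp ((f s.1).contMDiff_smul contMDiffOn_extChartAt)

/-- the set where the bump function is locally one -/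
def Ob (i : ι) : Set P := interior {x | f i x = 1}

/-- in the chart -/
def Ub (i : ι) : Set E :=
  (extChartAt 𝓘(ℝ, E) (f.c i)).target ∩ (extChartAt 𝓘(ℝ, E) (f.c i)).symm ⁻¹' Ob f i

theorem Ub_open (i : ι) : IsOpen (Ub f i) :=
  (continuousOn_extChartAt_symm (I := 𝓘(ℝ, E)) (f.c i)).isOpen_inter_preimage
    (isOpen_extChartAt_target _) isOpen_interior

theorem cd_fam (i : ι) (k : Fin (dm E)) {u : E} (hu : u ∈ Ub f i) :
    cd (f.c i) (fam f (i, k)) u = co E k := by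
  unfold cd
  have h1 : (fam f (i, k)) ∘ (extChartAt 𝓘(ℝ, E) (f.c i)).symm =ᶠ[𝓝 u] co E k := by
    filter_upwards [(Ub_open f i).mem_nhds hu] with v hv
    have h2' : (extChartAt 𝓘(ℝ, E) (f.c i)).symm v ∈ {x | f i x = 1} :=
      interior_subset (show (extChartAt 𝓘(ℝ, E) (f.c i)).symm v ∈ Ob f i from hv.2)
    have h2 : f i ((extChartAt 𝓘(ℝ, E) (f.c i)).symm v) = 1 := h2'
    show co E k (f i ((extChartAt 𝓘(ℝ, E) (f.c i)).symm v) •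
      extChartAt 𝓘(ℝ, E) (f.c i) ((extChartAt 𝓘(ℝ, E) (f.c i)).symm v)) = co E k v
    rw [h2, one_smul, (extChartAt 𝓘(ℝ, E) (f.c i)).right_inv hv.1]
  rw [h1.fderiv_eq]
  exact (co E k).fderiv

theorem exists_tau : Nonempty ((E →L[ℝ] ℝ) ≃L[ℝ] E) := by
  have hdim : Module.finrank ℝ (E →L[ℝ] ℝ) = Module.finrank ℝ E := by
    rw [← (LinearMap.toContinuousLinearMap (𝕜 := ℝ) (E := E) (F' := ℝ)).finrank_eq]
    exact (Subspace.dual_finrank_eq (K := ℝ) (V := E))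
  exact ⟨ContinuousLinearEquiv.ofFinrankEq hdim⟩

theorem local_generic (i : ι) {h : P → ℝ} (hh : ContMDiff 𝓘(ℝ, E) 𝓘(ℝ, ℝ) ∞ h) :
    ∀ᵐ a : ι × Fin (dm E) → ℝ, ∀ u ∈ Ub f i, cd (f.c i) (pf h (fam f) a) u = 0 →
      ∀ᶠ v in 𝓝[≠] u, cd (f.c i) (pf h (fam f) a) v ≠ 0 := by
  classical
  obtain ⟨τ⟩ := exists_tau (E := E)
  set Φ : E × (ι × Fin (dm E) → ℝ) → E := fun p =>
    τ (cd (f.c i) h p.1 + ∑ s, p.2 s • cd (f.c i) (fam f s) p.1) with hΦ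
  set L : E → (ι × Fin (dm E) → ℝ) := fun b s =>
    if s.1 = i then τ.symm b (Module.finBasis ℝ E s.2) else 0 with hL
  have hs : ContDiffOn ℝ 1 Φ (Ub f i ×ˢ univ) := by
    have hsub : ∀ {q : P → ℝ}, ContMDiff 𝓘(ℝ, E) 𝓘(ℝ, ℝ) ∞ q →
        ContDiffOn ℝ 1 (fun p : E × (ι × Fin (dm E) → ℝ) => cd (f.c i) q p.1)
          (Ub f i ×ˢ univ) := fun hq =>
      (cd_smooth (f.c i) hq).comp contDiff_fst.contDiffOn fun p hp => hp.1.1
    refine τ.contDiff.comp_contDiffOn ?_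
    refine (hsub hh).add ?_
    refine ContDiffOn.sum fun s _ => ?_
    have h4 : ContDiffOn ℝ 1 (fun p : E × (ι × Fin (dm E) → ℝ) => p.2 s) (Ub f i ×ˢ univ) :=
      ((contDiff_apply ℝ ℝ s).comp contDiff_snd).contDiffOn
    exact h4.smul (hsub (fam_smooth f s))
  have hlin : ∀ u ∈ Ub f i, ∀ a b, Φ (u, a + L b) = Φ (u, a) + b := by
    intro u hu a b
    have h1 : ∑ s, L b s • cd (f.c i) (fam f s) u = τ.symm b := by
      rw [Fintype.sum_prod_type, Finset.sum_eq_single i]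
      · conv_rhs => rw [← sum_co (τ.symm b)]
        refine Finset.sum_congr rfl fun k _ => ?_
        rw [cd_fam f i k hu]
        simp [hL]
      · intro j _ hj
        refine Finset.sum_eq_zero fun k _ => ?_
        simp [hL, hj]
      · intro h; exact absurd (Finset.mem_univ _) h
    simp only [hΦ, Pi.add_apply, add_smul, Finset.sum_add_distrib, h1]
    rw [← add_assoc, map_add, ContinuousLinearEquiv.apply_symm_apply]
  filter_upwards [generic volume (Ub_open f i) Φ hs L hlin] with a ha u hu h0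
  have h2 : ∀ v ∈ Ub f i, Φ (v, a) = τ (cd (f.c i) (pf h (fam f) a) v) := fun v hv => by
    rw [cd_pf (f.c i) hh (fam_smooth f) a hv.1]
  have h3 := ha u hu (by rw [h2 u hu, h0, map_zero])
  filter_upwards [h3, mem_nhdsWithin_of_mem_nhds ((Ub_open f i).mem_nhds hu)] with v hv hv2 h4
  apply hv
  rw [h2 v hv2, h4, map_zero]

variable [CompactSpace P]

theorem generic_finite {h : P → ℝ} (hh : ContMDiff 𝓘(ℝ, E) 𝓘(ℝ, ℝ) ∞ h) :
    ∀ᵐ a : ι × Fin (dm E) → ℝ, {x | dForm 𝓘(ℝ, E) (pf h (fam f) a) x = 0}.Finite := by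
  have h1 : ∀ᵐ a : ι × Fin (dm E) → ℝ, ∀ i, ∀ u ∈ Ub f i, cd (f.c i) (pf h (fam f) a) u = 0 →
      ∀ᶠ v in 𝓝[≠] u, cd (f.c i) (pf h (fam f) a) v ≠ 0 :=
    ae_all_iff.2 fun i => local_generic f i hh
  filter_upwards [h1] with a ha
  have hq := pf_smooth hh (fam_smooth f) a
  set q := pf h (fam f) a with hqd
  set K := {x | dForm 𝓘(ℝ, E) q x = 0} with hK
  obtain ⟨n, e, h2, -, h3⟩ := exists_embedding_euclidean_of_compact (I := 𝓘(ℝ, E)) (M := P)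
  let im : Imm (E := E) P n := ⟨e, h2, h3⟩
  have hKc : IsClosed K := by
    have h4 : K = im.G q ⁻¹' {0} := by
      ext x
      refine ⟨fun hx => ?_, fun hx => im.G_eq_zero hx⟩
      show dForm 𝓘(ℝ, E) q x _ = 0
      rw [show dForm 𝓘(ℝ, E) q x = 0 from hx]
      rfl
    rw [h4]
    exact isClosed_singleton.preimage (im.smooth_G hq).continuous
  by_contra hinf
  obtain ⟨x, hxK, hacc⟩ := Set.Infinite.exists_accPt_of_subset_isCompact hinf hKc.isCompact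
    (subset_refl K)
  rw [accPt_iff_frequently_nhdsNE] at hacc
  apply hacc
  set i := f.ind x (mem_univ x) with hi
  have hsrc : x ∈ (extChartAt 𝓘(ℝ, E) (f.c i)).source := f.mem_extChartAt_ind_source x (mem_univ x)
  have hOb : x ∈ Ob f i := by
    rw [Ob, mem_interior_iff_mem_nhds]
    exact f.eventuallyEq_one x (mem_univ x)
  have hu : extChartAt 𝓘(ℝ, E) (f.c i) x ∈ Ub f i := by
    refine ⟨(extChartAt 𝓘(ℝ, E) (f.c i)).map_source hsrc, ?_⟩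
    show (extChartAt 𝓘(ℝ, E) (f.c i)).symm (extChartAt 𝓘(ℝ, E) (f.c i) x) ∈ Ob f i
    rw [(extChartAt 𝓘(ℝ, E) (f.c i)).left_inv hsrc]
    exact hOb
  have h4 := ha i _ hu (cd_crit (f.c i) hq hsrc hxK)
  have h5 : ∀ᶠ y in 𝓝[≠] x, y ∈ (extChartAt 𝓘(ℝ, E) (f.c i)).source :=
    mem_nhdsWithin_of_mem_nhds ((isOpen_extChartAt_source (I := 𝓘(ℝ, E)) (f.c i)).mem_nhds hsrc)
  have h6 : Tendsto (extChartAt 𝓘(ℝ, E) (f.c i)) (𝓝[≠] x)
      (𝓝[≠] (extChartAt 𝓘(ℝ, E) (f.c i) x)) := by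
    refine tendsto_nhdsWithin_of_tendsto_nhds_of_eventually_within _ ?_ ?_
    · exact (continuousAt_extChartAt' (I := 𝓘(ℝ, E)) hsrc).tendsto.mono_left nhdsWithin_le_nhds
    · filter_upwards [h5, self_mem_nhdsWithin] with y hy hne heq
      exact hne ((extChartAt 𝓘(ℝ, E) (f.c i)).injOn hy hsrc heq)
  filter_upwards [h6.eventually h4, h5] with y hy hys hyK
  exact hy (cd_crit (f.c i) hq hys hyK)

end Pool.Agent.X84.Fl
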