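import Pool.Agent.X84.Fl.Fld

/-!
# Perturbation of fields along which a function does not decrease
-/

open scoped Topology ContDiff Manifold
open Set Filter Bundle MeasureTheory Pool.Agent.Helper186 Pool.Agent.H826R2.Wein

set_option autoImplicit false
set_option linter.unusedSectionVars false

noncomputable section

namespace Pool.Agent.X84.Fl

universe u

variable {E : Type u} [NormedAddCommGroup E] [NormedSpace ℝ E] [FiniteDimensional ℝ E]
  {P : Type*} [TopologicalSpace P] [ChartedSpace E P] [IsManifold 𝓘(ℝ, E) ∞ P] [T2Space P]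
  [CompactSpace P]

theorem exists_imm : ∃ n : ℕ, Nonempty (Imm (E := E) P n) := by
  obtain ⟨n, e, h1, -, h2⟩ := exists_embedding_euclidean_of_compact (I := 𝓘(ℝ, E)) (M := P)
  exact ⟨n, ⟨⟨e, h1, h2⟩⟩⟩

/-- nonwandering points -/
def Nonw {M : Type*} [TopologicalSpace M] (ψ : Flow ℝ M) (p : M) : Prop :=
  ∀ U ∈ 𝓝 p, ∀ T : ℝ, ∃ t ≥ T, (ψ t '' U ∩ U).Nonempty

/-- A continuous monotone function is constant along the orbits of nonwandering points. -/
theorem const_of_nonw {M : Type*} [TopologicalSpace M] {ψ : Flow ℝ M} {h : M → ℝ}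
    (hc : Continuous h) (hm : ∀ x, Monotone fun t => h (ψ t x)) {p : M} (hp : Nonw ψ p) (t : ℝ) :
    h (ψ t p) = h p := by
  have hct : ∀ s : ℝ, Continuous (ψ s) := fun s => ψ.continuous continuous_const continuous_id
  have key : ∀ T : ℝ, 0 < T → h (ψ T p) ≤ h p ∧ h p ≤ h (ψ (-T) p) := by
    intro T hT
    constructor
    · by_contra hlt
      push Not at hlt
      obtain ⟨c, hc1, hc2⟩ := exists_between hlt
      have hU : {x | h x < c ∧ c < h (ψ T x)} ∈ 𝓝 p :=
        IsOpen.mem_nhds ((isOpen_lt hc continuous_const).inter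
          (isOpen_lt continuous_const (hc.comp (hct T)))) ⟨hc1, hc2⟩
      obtain ⟨s, hs, _, ⟨x, hx, rfl⟩, hy⟩ := hp _ hU T
      have h1 := hm x hs
      simp only [mem_ofPred_eq] at hx hy h1
      linarith [hx.2, hy.1]
    · by_contra hlt
      push Not at hlt
      obtain ⟨c, hc1, hc2⟩ := exists_between hlt
      have hU : {x | c < h x ∧ h (ψ (-T) x) < c} ∈ 𝓝 p :=
        IsOpen.mem_nhds ((isOpen_lt continuous_const hc).inter
          (isOpen_lt (hc.comp (hct (-T))) continuous_const)) ⟨hc2, hc1⟩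
      obtain ⟨s, hs, _, ⟨x, hx, rfl⟩, hy⟩ := hp _ hU T
      have h1 := hm x (show (0:ℝ) ≤ -T + s by linarith)
      simp only [mem_ofPred_eq] at hx hy h1
      rw [Flow.map_zero_apply, ψ.map_add] at h1
      linarith [hx.1, hy.2]
  rcases lt_trichotomy t 0 with h0 | h0 | h0
  · have h1 := (key (-t) (by linarith)).2
    rw [neg_neg] at h1
    have h2 := hm p h0.le
    simp only [Flow.map_zero_apply] at h2
    exact le_antisymm h2 h1
  · rw [h0, Flow.map_zero_apply]
  · have h1 := (key t h0).1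
    have h2 := hm p h0.le
    simp only [Flow.map_zero_apply] at h2
    exact le_antisymm h1 h2

variable {X : (x : P) → TangentSpace 𝓘(ℝ, E) x} {φ : Flow ℝ P} {h : P → ℝ} {n : ℕ}

theorem mono_main (ι : Imm (E := E) P n) (hX : SmF X) (hφ : IsFl X φ)
    (hh : ContMDiff 𝓘(ℝ, E) 𝓘(ℝ, ℝ) ∞ h) (hm : ∀ x, 0 ≤ dForm 𝓘(ℝ, E) h x (X x))
    {m : ℕ} (A : Fin m → Set P) (hcl : ∀ i, IsClosed (A i))
    (hd : ∀ i j, i ≠ j → Disjoint (A i) (A j)) (hcr : ∀ i, ∀ x ∈ A i, dForm 𝓘(ℝ, E) h x = 0)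
    (hinv : ∀ i t, φ t '' A i = A i)
    (htr : ∀ i, ∃ x ∈ A i, A i ⊆ closure ((fun t => φ t x) '' Ici 0))
    (hcov : ∀ y, (∀ t, dForm 𝓘(ℝ, E) h (φ t y) = 0) → y ∈ ⋃ i, A i) {ε : ℝ} (hε : 0 < ε)
    {ψ : Flow ℝ P} (hψ : IsFl (pert ι X h ε) ψ) :
    (∀ i, ∀ x ∈ A i, ∀ t, ψ t x = φ t x) ∧ (∀ p, Nonw ψ p → p ∈ ⋃ i, A i) ∧
      (∀ p, ∃ i, om ψ p ⊆ A i) ∧ ∀ [MeasurableSpace P] (μ : Measure P), FinAttr μ ψ := by
  have hY := pert_smooth ι hX hh ε
  have hmono := mono_along hψ hh (pert_nonneg ι hm hε.le)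
  -- orbits on which `h` is constant
  have hconst : ∀ y, (∀ t, h (ψ t y) = h y) → y ∈ ⋃ i, A i := by
    intro y hy
    have h1 : ∀ t, dForm 𝓘(ℝ, E) h (ψ t y) = 0 := fun t =>
      pert_crit ι hm hε (zero_along hψ hh hy t)
    have h2 : ∀ t, ψ t y = φ t y := same_orbit hX hφ hψ fun t => (pert_eq ι (h1 t)).symm
    exact hcov y fun t => by rw [← h2]; exact h1 t
  -- the pieces
  have hsame : ∀ i, ∀ x ∈ A i, ∀ t, ψ t x = φ t x := by
    intro i x hx
    have h1 : ∀ t, φ t x ∈ A i := fun t => by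
      rw [← hinv i t]
      exact mem_image_of_mem _ hx
    have h2 : ∀ t, φ t x = ψ t x := same_orbit hY hψ hφ fun t => pert_eq ι (hcr i _ (h1 t))
    exact fun t => (h2 t).symm
  have hpc : ∀ p, ∃ i, om ψ p ⊆ A i := pieces hh.continuous hmono A hcl hd hconst
  refine ⟨hsame, fun p hp => hconst p fun t => const_of_nonw hh.continuous hmono hp t, hpc, ?_⟩
  intro _ μ
  refine finAttr μ A ?_ ?_ hpc
  · intro i t
    calc ψ t '' A i = φ t '' A i := image_congr fun x hx => hsame i x hx t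
      _ = A i := hinv i t
  · intro i
    obtain ⟨x, hx, h1⟩ := htr i
    refine ⟨x, hx, ?_⟩
    have : (fun t => ψ t x) = fun t => φ t x := funext fun t => hsame i x hx t
    rw [this]
    exact h1

end Pool.Agent.X84.Fl
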