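import Mathlib

/-!
# Generic isolated zeros
-/

open Set Filter Topology MeasureTheory

set_option autoImplicit false

namespace Pool.Agent.X84.Fl

variable {E A : Type*} [NormedAddCommGroup E] [NormedSpace ℝ E] [FiniteDimensional ℝ E]
  [NormedAddCommGroup A] [NormedSpace ℝ A] [FiniteDimensional ℝ A] [MeasurableSpace A] [BorelSpace A]

theorem generic (μ : Measure A) [μ.IsAddHaarMeasure] {U : Set E} (hU : IsOpen U) (Φ : E × A → E)
    (hΦ : ContDiffOn ℝ 1 Φ (U ×ˢ univ)) (L : E → A)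
    (hL : ∀ u ∈ U, ∀ a b, Φ (u, a + L b) = Φ (u, a) + b) :
    ∀ᵐ a ∂μ, ∀ u ∈ U, Φ (u, a) = 0 → ∀ᶠ v in 𝓝[≠] u, Φ (v, a) ≠ 0 := by
  borelize E
  set ν : Measure E := Measure.addHaar with hν
  have hUo : IsOpen (U ×ˢ (univ : Set A)) := hU.prod isOpen_univ
  set Θ : E × A → E × A := fun p => (Φ p, p.2) with hΘ
  have hd : ∀ p ∈ U ×ˢ (univ : Set A), DifferentiableAt ℝ Θ p := by
    intro p hp
    have h1 : DifferentiableAt ℝ Φ p :=
      ((hΦ.differentiableOn one_ne_zero) p hp).differentiableAt (hUo.mem_nhds hp)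
    exact h1.prodMk differentiableAt_snd
  have hc : ∀ p ∈ U ×ˢ (univ : Set A), HasFDerivAt Θ (fderiv ℝ Θ p) p := fun p hp =>
    (hd p hp).hasFDerivAt
  set s : Set (E × A) := {p | p ∈ U ×ˢ (univ : Set A) ∧ (fderiv ℝ Θ p).det = 0} with hs
  set N := Θ '' s with hN
  have hN0 : (ν.prod μ) N = 0 :=
    addHaar_image_eq_zero_of_det_fderivWithin_eq_zero (ν.prod μ)
      (fun p hp => (hc p hp.1).hasFDerivWithinAt) fun p hp => hp.2
  have h1 := Measure.measure_ae_null_of_prod_null hN0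
  obtain ⟨c, hc0⟩ := h1.exists
  have hshift : ∀ a, (0, a) ∈ N → (c, a + L c) ∈ N := by
    rintro a ⟨⟨u, a'⟩, ⟨hua, hdet⟩, heq⟩
    simp only [hΘ, Prod.mk.injEq] at heq
    obtain ⟨h2, rfl⟩ := heq
    refine ⟨(u, a' + L c), ⟨⟨hua.1, mem_univ _⟩, ?_⟩, ?_⟩
    · have h3 : (fun p : E × A => Θ (p + (0, L c))) =ᶠ[𝓝 (u, a')] fun p => Θ p + (c, L c) := by
        filter_upwards [hUo.mem_nhds hua] with p hp
        simp only [hΘ]
        have h4 : p + (0, L c) = (p.1, p.2 + L c) := by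
          ext <;> simp
        rw [h4, hL p.1 hp.1]
        rfl
      have h5 : HasFDerivAt Θ (fderiv ℝ Θ ((u, a') + (0, L c))) ((u, a') + (0, L c)) := by
        apply hc
        exact ⟨by simpa using hua.1, mem_univ _⟩
      have h6 : HasFDerivAt (fun p : E × A => Θ (p + (0, L c)))
          (fderiv ℝ Θ ((u, a') + (0, L c))) (u, a') := by
        have h6 : HasFDerivAt (fun p : E × A => p + (0, L c)) (ContinuousLinearMap.id ℝ (E × A))
            (u, a') := (hasFDerivAt_id (u, a')).add_const (0, L c)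
        exact HasFDerivAt.comp (u, a') h5 h6
      have h7 : HasFDerivAt (fun p : E × A => Θ (p + (0, L c))) (fderiv ℝ Θ (u, a')) (u, a') :=
        ((hc _ hua).add_const (c, L c)).congr_of_eventuallyEq h3
      have h8 := h6.unique h7
      have h9 : ((u, a') + (0, L c) : E × A) = (u, a' + L c) := by
        ext <;> simp
      rw [h9] at h8
      rw [h8]
      exact hdet
    · simp only [hΘ, Prod.mk.injEq, and_true]
      rw [hL u hua.1, h2, zero_add]
  have hnull : μ {a | (0, a) ∈ N} = 0 := by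
    have h2 : {a | ((0 : E), a) ∈ N} ⊆ (fun a => a + L c) ⁻¹' (Prod.mk c ⁻¹' N) := fun a ha =>
      hshift a ha
    refine measure_mono_null h2 ?_
    rw [measure_preimage_add_right]
    exact hc0
  have hae : ∀ᵐ a ∂μ, a ∉ {a | ((0 : E), a) ∈ N} := measure_eq_zero_iff_ae_notMem.1 hnull
  filter_upwards [hae] with a ha u hu h0
  have hmem : (u, a) ∈ U ×ˢ (univ : Set A) := ⟨hu, mem_univ _⟩
  have hdet : (fderiv ℝ Θ (u, a)).det ≠ 0 := by
    intro h2
    exact ha ⟨(u, a), ⟨hmem, h2⟩, by simp only [hΘ, h0]⟩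
  have hanti : ∃ C, AntilipschitzWith C (fderiv ℝ Θ (u, a)) := by
    set B := (fderiv ℝ Θ (u, a)).toContinuousLinearEquivOfDetNeZero hdet with hB
    have h2 := B.antilipschitz
    rw [show (B : E × A → E × A) = fderiv ℝ Θ (u, a) from funext fun x =>
      (fderiv ℝ Θ (u, a)).toContinuousLinearEquivOfDetNeZero_apply hdet x] at h2
    exact ⟨_, h2⟩
  have h3 := (hc _ hmem).eventually_ne hanti (c := Θ (u, a))
  have h4 : Tendsto (fun v : E => (v, a)) (𝓝[≠] u) (𝓝[≠] (u, a)) := by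
    refine tendsto_nhdsWithin_of_tendsto_nhds_of_eventually_within _ ?_ ?_
    · exact ((continuous_id.prodMk continuous_const).tendsto u).mono_left nhdsWithin_le_nhds
    · filter_upwards [eventually_mem_nhdsWithin] with v hv
      intro h5
      exact hv (Prod.mk.inj h5).1
  filter_upwards [h4.eventually h3] with v hv h5
  apply hv
  simp only [hΘ, h5, h0]

end Pool.Agent.X84.Fl
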